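import Pool.Agent.H899.LG.Bd

/-!
# The movable cone conjecture is equivalent to the existence of a finite certificate

Let `Y` be a smooth projective variety with `K_Y ≡ 0`, given by its function field `K` and the set
`P` of its prime divisors (places of `K`). Here `N1 P` is `N¹(Y)`, `lat P` is the integral lattice,
`MovE P` is the effective movable cone, `inn` is the interior, `cn t` is the cone generated by
the finitely many vectors `t j`, and `psAut P` is the group of the birational automorphisms
(which are isomorphisms in codimension one), which acts on `N1 P` by `act`.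

A *certificate* consists of finitely many full-dimensional rational polyhedral cones `cn (t i)` in
the effective movable cone and of a set `S` of birational automorphisms, such that behind every
facet (face of codimension one) of one of the cones which meets the interior of the movable cone
there is a translate `g (cn (t i'))`, `g ∈ S`, which contains the facet. There are finitely many
facets, so a certificate with a finite set `S` is a finite set of data.

* Every certificate implies the movable cone conjecture. Moreover the translates of the cones by the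
  group generated by `S` cover the effective movable cone, and the image of this group in
  `GL(N¹(Y))` has finite index in the image of the full group of birational automorphisms.
* Conversely, if the movable cone conjecture holds for `Y`, then there is a certificate which
  consists of one cone and of a finite set `S`.

So for the movable cone conjecture neither the group of the birational automorphisms nor the movable
cone has to be known: it holds if and only if the wall crossings of finitely many cones can be
matched by finitely many birational automorphisms.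
-/

set_option autoImplicit false
set_option linter.overlappingInstances false
set_option linter.unusedSectionVars false
set_option linter.unusedVariables false

open FF Module Pool.Agent.K1H17.MC

namespace Pool.Agent.Results.MP_e39d36_ag.FiniteCertificate

open Pool.Agent.H899.LG

/-- A *certificate*: the classes `t i j` are integral and lie in the effective movable cone
`MovE P`, every cone `cn (t i)` is full-dimensional, and for every facet of `cn (t i)` which contains
a point of the interior of the movable cone (the facet is cut out by a linear form `ℓ ≠ 0` which is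
nonnegative on the cone, and which vanishes on enough generators to span its kernel) there is a
translate `g (cn (t i'))`, `g ∈ S`, which contains the facet and a point on the other side. -/
structure Certificate {k K : Type} [Field k] [Field K] [Algebra k K] (P : Set (Place k K))
    (S : Set (psAut P)) {N : ℕ} {m : Fin N → ℕ} (t : ∀ i, Fin (m i) → N1 P) : Prop where
  lattice : ∀ i j, t i j ∈ lat P
  movable : ∀ i j, t i j ∈ MovE P
  full : ∀ i, Submodule.span ℝ (Set.range (t i)) = ⊤
  walls : ∀ i (ℓ : N1 P →ₗ[ℝ] ℝ), ℓ ≠ 0 → (∀ j, 0 ≤ ℓ (t i j)) →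
    LinearMap.ker ℓ ≤ Submodule.span ℝ {x | ∃ j, ℓ (t i j) = 0 ∧ x = t i j} →
    (∃ x ∈ cn (t i), ℓ x = 0 ∧ x ∈ inn (MovE P)) →
    ∃ g ∈ S, ∃ i', (∀ j, ℓ (t i j) = 0 → t i j ∈ act g '' cn (t i')) ∧
      ∃ y ∈ act g '' cn (t i'), ℓ y < 0

section

variable {k K : Type} [Field k] [Field K] [Algebra k K] {P : Set (Place k K)}

theorem Certificate.cover {S : Set (psAut P)} {N : ℕ} {m : Fin N → ℕ}
    {t : ∀ i, Fin (m i) → N1 P} (hc : Certificate P S t) (hN : 0 < N) (hample : HasAmple P)
    (hbase : HasBase P) : ∀ x ∈ inn (MovE P), ∃ γ : Subgroup.closure S, ∃ i, ∃ y ∈ cn (t i),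
      x = (rho P).comp (Subgroup.closure S).subtype γ y := by
  classical
  obtain ⟨n, b, ξ, hb, hbz, hξE, hξ0, hdat⟩ := exists_datE hample hbase
  have hd := Dat.restrict hdat (Subgroup.closure S)
  have : Nonempty (Fin N) := ⟨⟨0, hN⟩⟩
  refine wall_crossing hd b hb hc.lattice hc.movable hc.full ?_
  intro i ℓ h1 h2 h3 h4
  obtain ⟨g, hg, i', h5, h6⟩ := hc.walls i ℓ h1 h2 h3 h4
  exact ⟨⟨g, Subgroup.subset_closure hg⟩, i', h5, h6⟩

end

/-- **The movable cone conjecture is equivalent to the existence of a finite certificate.** -/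
theorem result {k K : Type} [Field k] [Field K] [Algebra k K] (P : Set (Place k K))
    (hample : HasAmple P) (hbase : HasBase P) :
    -- the conjecture holds if and only if there is a certificate with finitely many cones and
    -- finitely many automorphisms
    (MovableConeConjecture P ↔ ∃ (S : Finset (psAut P)) (N : ℕ) (m : Fin N → ℕ)
      (t : ∀ i, Fin (m i) → N1 P), 0 < N ∧ Certificate P (S : Set (psAut P)) t) ∧
    -- and then there is one with a single cone
    (MovableConeConjecture P → ∃ (S : Finset (psAut P)) (m : ℕ)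
      (t : Fin m → N1 P), Certificate P (S : Set (psAut P)) (N := 1) fun _ => t) ∧
    -- for every certificate, the automorphisms which occur in it generate a group whose image has
    -- finite index and whose translates of the cones cover the effective movable cone
    ∀ (S : Set (psAut P)) (N : ℕ) (m : Fin N → ℕ) (t : ∀ i, Fin (m i) → N1 P), 0 < N →
      Certificate P S t → MovableConeConjecture P ∧
        (∀ x ∈ MovE P, ∃ g ∈ Subgroup.closure S, ∃ i, x ∈ act g '' cn (t i)) ∧
        ∃ F : Finset (psAut P), ∀ g : psAut P, ∃ h ∈ Subgroup.closure S, ∃ f ∈ F,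
          act g = act h ∘ₗ act f := by
  classical
  obtain ⟨n, b, ξ, hb, hbz, hξE, hξ0, hdat⟩ := exists_datE hample hbase
  have hone : MovableConeConjecture P → ∃ (S : Finset (psAut P)) (m : ℕ)
      (t : Fin m → N1 P), Certificate P (S : Set (psAut P)) (N := 1) fun _ => t := by
    rintro ⟨Q, hQ, hQM, -⟩
    have hQC : Q ⊆ MovE P := by
      rw [← hQM]
      intro x hx
      exact Set.mem_iUnion.2 ⟨1, x, hx, by change rho P 1 x = x; rw [map_one]; rfl⟩
    have hcov : ∀ x ∈ MovE P, ∃ γ, ∃ y ∈ Q, x = rho P γ y := by
      intro x hx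
      rw [← hQM, Set.mem_iUnion] at hx
      obtain ⟨γ, y, hy, h⟩ := hx
      exact ⟨γ, y, hy, h.symm⟩
    obtain ⟨H, hH⟩ := hample
    obtain ⟨m, t, ht, hD, hDcov, x0, hx0, hx0i⟩ := dirichlet hdat b hb hQ hQC hcov (ample_inn hH)
    obtain ⟨S, hS⟩ := exists_cert hdat b hb ht hD hDcov
    have htC : ∀ j, t j ∈ MovE P := fun j => by
      have h1 := gen_mem t j
      rw [hD] at h1
      exact h1.1
    refine ⟨S, m, t, fun _ => ht, fun _ => htC,
      fun _ => full_of_cover hdat b hb ht htC hDcov hx0i, ?_⟩
    rintro i ℓ hℓ0 hℓ hker ⟨x, ⟨a, ha, hxa⟩, hℓx, hxi⟩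
    obtain ⟨J, hJ⟩ : ∃ J : Finset (Fin m), J = Finset.univ.filter fun j => ℓ (t j) = 0 := ⟨_, rfl⟩
    have haJ : ∀ j, j ∉ J → a j = 0 := by
      intro j hj
      have h1 : ∑ j, a j * ℓ (t j) = 0 := by
        rw [← hℓx, hxa, map_sum]
        exact Finset.sum_congr rfl fun j _ => by rw [map_smul, smul_eq_mul]
      have h2 := (Finset.sum_eq_zero_iff_of_nonneg fun j _ => mul_nonneg (ha j) (hℓ j)).1 h1 j
        (Finset.mem_univ j)
      rcases mul_eq_zero.1 h2 with h3 | h3
      · exact h3
      · exact absurd (by rw [hJ, Finset.mem_filter]; exact ⟨Finset.mem_univ _, h3⟩) hj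
    obtain ⟨c, hc0, hca⟩ : ∃ c : ℝ, 0 < c ∧ ∀ j, a j ≤ c := by
      refine ⟨1 + ∑ j, a j, by
        have := Finset.sum_nonneg fun j (_ : j ∈ Finset.univ) => ha j
        linarith, fun j => ?_⟩
      have := Finset.single_le_sum (fun j _ => ha j) (Finset.mem_univ j)
      linarith
    have heJ : ∑ j ∈ J, t j ∈ inn (MovE P) := by
      have h1 : c • ∑ j ∈ J, t j = x + ∑ j ∈ J, (c - a j) • t j := by
        have h2 : x = ∑ j ∈ J, a j • t j := by
          rw [hxa]
          refine (Finset.sum_subset (Finset.subset_univ J) fun j _ hj => ?_).symm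
          rw [haJ j hj, zero_smul]
        rw [h2, ← Finset.sum_add_distrib, Finset.smul_sum]
        exact Finset.sum_congr rfl fun j _ => by rw [← add_smul]; congr 1; ring
      have h3 : c • ∑ j ∈ J, t j ∈ inn (MovE P) := by
        rw [h1]
        exact inn_add MovE_cone hxi (MovE_cone.sum _ _ fun j hj =>
          MovE_cone.smul _ (by linarith [hca j]) _ (htC j))
      have h4 := inn_smul MovE_cone h3 (inv_pos.2 hc0)
      rwa [smul_smul, inv_mul_cancel₀ hc0.ne', one_smul] at h4
    obtain ⟨v, hv⟩ : ∃ v, ℓ v < 0 := by
      obtain ⟨v, hv⟩ : ∃ v, ℓ v ≠ 0 := by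
        by_contra hcon
        push Not at hcon
        exact hℓ0 (LinearMap.ext hcon)
      rcases lt_or_gt_of_ne hv with h1 | h1
      · exact ⟨v, h1⟩
      · exact ⟨-v, by rw [map_neg]; linarith⟩
    obtain ⟨ε, hε, g, hg, h1, h2⟩ := hS J heJ v
    refine ⟨g, hg, 0, fun j hj => h2 j (by
      rw [hJ, Finset.mem_filter]; exact ⟨Finset.mem_univ _, hj⟩), _, h1, ?_⟩
    rw [map_add, map_smul, map_sum, Finset.sum_eq_zero fun j hj => by
      rw [hJ, Finset.mem_filter] at hj; exact hj.2, zero_add, smul_eq_mul]
    exact mul_neg_of_pos_of_neg hε hv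
  have hall : ∀ (S : Set (psAut P)) (N : ℕ) (m : Fin N → ℕ) (t : ∀ i, Fin (m i) → N1 P), 0 < N →
      Certificate P S t → MovableConeConjecture P ∧
        (∀ x ∈ MovE P, ∃ g ∈ Subgroup.closure S, ∃ i, x ∈ act g '' cn (t i)) ∧
        ∃ F : Finset (psAut P), ∀ g : psAut P, ∃ h ∈ Subgroup.closure S, ∃ f ∈ F,
          act g = act h ∘ₗ act f := by
    intro S N m t hN hc
    have hcov := hc.cover hN hample hbase
    have hQC : ∀ i, cn (t i) ⊆ MovE P := fun i => cn_sub MovE_cone (hc.movable i)
    refine ⟨?_, ?_, ?_⟩
    · refine (big_main hample hbase (κ := Fin N) (Q := fun i => cn (t i))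
        (fun i => ⟨_, t i, hc.lattice i, rfl⟩) (fun i => (hQC i).trans Set.inter_subset_left)
        fun x hx => ?_).2 fun i => (hQC i).trans Set.inter_subset_right
      obtain ⟨γ, i, y, hy, h⟩ := hcov x hx
      exact ⟨γ, i, y, hy, h.symm⟩
    · intro x hx
      obtain ⟨γ, i, y, hy, h⟩ := cover_of_inn' hample hbase (Subgroup.closure S) (κ := Fin N)
        (Q := fun i => cn (t i)) (fun i => ⟨_, t i, hc.lattice i, rfl⟩)
        (fun i => (hQC i).trans Set.inter_subset_left) hcov x hx
      exact ⟨γ, γ.2, i, y, hy, h.symm⟩
    · have hi0 : ∑ j, t ⟨0, hN⟩ j ∈ inn (MovE P) := by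
        intro w
        obtain ⟨ε, hε, h1⟩ := relint (t := t ⟨0, hN⟩) (J := Finset.univ) (a := fun _ => 1)
          (fun _ _ => one_pos) (w := w) (by
            rw [Finset.coe_univ, Set.image_univ, hc.full]; trivial)
        have h2 := h1 ε hε.le le_rfl (MovE P) MovE_cone fun j _ => hc.movable _ j
        simp only [one_smul] at h2
        exact ⟨ε, hε, h2⟩
      refine fin_index hdat b hb hc.lattice hc.movable (G := Subgroup.closure S)
        (x0 := ∑ j, t ⟨0, hN⟩ j) (i0 := ⟨0, hN⟩)
        ((cn_cone _).sum _ _ fun j _ => gen_mem _ j) hi0 fun x hx => ?_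
      obtain ⟨γ, i, y, hy, h⟩ := hcov x hx
      exact ⟨γ, γ.2, i, y, hy, h⟩
  refine ⟨⟨fun h => ?_, ?_⟩, hone, hall⟩
  · obtain ⟨S, m, t, h1⟩ := hone h
    exact ⟨S, 1, fun _ => m, fun _ => t, one_pos, h1⟩
  · rintro ⟨S, N, m, t, hN, h⟩
    exact (hall _ N m t hN h).1

end Pool.Agent.Results.MP_e39d36_ag.FiniteCertificate
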